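import Pool.Agent.Lib.MP_29559a_lc.OL.Main

/-!
# The one-layer model of simple foldability of rectangles with orthogonal creases is in P

A deterministic polynomial time Turing machine decides, for a rectangle of paper in arbitrary
position and a mountain-valley pattern of creases parallel to the coordinate axes (all coordinates
are integers in binary), whether the pattern is simply foldable in the one-layer model.
-/

namespace Pool.Agent.Results.MP_29559a_lc.OneLayerInP

open Pool.Agent.PolyTime Pool.Agent.Lib.MP29559a

/-- A deterministic Turing machine decides in polynomial time whether its input is (the code of) a
rectangle with an orthogonal mountain-valley crease pattern which is simply foldable in the one-layer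
model; and the coding of inputs by bit strings is injective. -/
theorem result : Function.Injective (encode : Inp → List Bool) ∧ ∃ dec : Inp → Bool,
    Nonempty (Turing.TM2ComputableInPolyTime (encode (α := Inp)) Computability.encodeBool dec) ∧
    ∀ I : Inp, dec I = true ↔ Valid I ∧ SimplyFoldable I :=
  ⟨encode_injective, main⟩

end Pool.Agent.Results.MP_29559a_lc.OneLayerInP
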